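import Pool.Agent.MP_2b7300_co.Mg.Ex

set_option autoImplicit false

namespace Pool.Agent.Results.MP_2b7300_co.NoBipartitePair

open Pool.Agent.MP_2b7300_co

/-- A maximal planar graph on 36 vertices whose vertex set cannot be split into two total
dominating sets that both induce bipartite graphs. -/
theorem result : ∃ G : SimpleGraph (Fin 36),
    Planar G ∧ (∀ H : SimpleGraph (Fin 36), G < H → ¬ Planar H) ∧
    ∀ D : Set (Fin 36), (G.induce D).Colorable 2 → (G.induce Dᶜ).Colorable 2 →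
      ¬ ((∀ v, ∃ u ∈ D, G.Adj v u) ∧ ∀ v, ∃ u ∈ Dᶜ, G.Adj v u) := by
  refine ⟨T, T_planar, T_max, ?_⟩
  rintro D ⟨f⟩ ⟨g⟩ ⟨h1, h2⟩
  classical
  let c : Fin 36 → Fin 4 := fun v =>
    if h : v ∈ D then ⟨f ⟨v, h⟩, by have := (f ⟨v, h⟩).2; omega⟩
    else ⟨2 + g ⟨v, h⟩, by have := (g ⟨v, h⟩).2; omega⟩
  have hc : ∀ v, (c v).val < 2 ↔ v ∈ D := by
    intro v
    by_cases h : v ∈ D
    · simp only [c, h, dif_pos, iff_true]
      exact (f ⟨v, h⟩).2
    · simp only [c, h, dif_neg, not_false_eq_true, iff_false]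
      omega
  obtain ⟨v, hv⟩ := T_col c (by
    intro u v k e
    have e' := congrArg Fin.val e
    by_cases hu : u ∈ D
    · have hv : v ∈ D := by rw [← hc, ← e, hc]; exact hu
      simp only [c, hu, hv, dif_pos] at e'
      exact f.valid (v := ⟨u, hu⟩) (w := ⟨v, hv⟩) k (Fin.ext e')
    · have hv : v ∉ D := by rw [← hc, ← e, hc]; exact hu
      simp only [c, hu, hv, dif_neg, not_false_eq_true] at e'
      exact g.valid (v := ⟨u, hu⟩) (w := ⟨v, hv⟩) k (Fin.ext (by omega)))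
  simp only [op, hc] at hv
  by_cases h : v ∈ D
  · obtain ⟨u, hu, k⟩ := h1 v
    exact hv u k ⟨fun _ => h, fun _ => hu⟩
  · obtain ⟨u, hu, k⟩ := h2 v
    exact hv u k ⟨fun z => (hu z).elim, fun z => (h z).elim⟩

end Pool.Agent.Results.MP_2b7300_co.NoBipartitePair
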